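import Pool.Agent.Helper40.Nm.Goals

/-!
Packet PTS (MP_f619a5_ag): equivariant homomorphisms give points.
-/

open CategoryTheory AlgebraicGeometry Limits TensorProduct

namespace Pool.Agent.Helper80.Nm

open Pool.Agent.Helper40.Nm

section fixed

variable {M E C : Type} [Field M] [Field E] [Algebra M E] [CommRing C] [Algebra M C]

theorem fixed_mem [FiniteDimensional M E] [IsGalois M E] (z : E ⊗[M] C)
    (hz : ∀ γ : E ≃ₐ[M] E,
      Algebra.TensorProduct.map (γ : E →ₐ[M] E) (AlgHom.id M C) z = z) :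
    ∃ c : C, z = 1 ⊗ₜ[M] c := by
  classical
  let b := Module.Basis.ofVectorSpace M C
  let β := Algebra.TensorProduct.basis E b
  have key : ∀ (γ : E ≃ₐ[M] E) (z : E ⊗[M] C) i,
      β.repr (Algebra.TensorProduct.map (γ : E →ₐ[M] E) (AlgHom.id M C) z) i =
        γ (β.repr z i) := by
    intro γ z i
    induction z with
    | zero => simp
    | add x y hx hy => simp [hx, hy]
    | tmul a c =>
      simp [β, Algebra.TensorProduct.basis_repr_tmul]
  have h2 : ∀ i, β.repr z i ∈ Set.range (algebraMap M E) := by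
    intro i
    rw [IsGalois.mem_range_algebraMap_iff_fixed]
    intro γ
    rw [← key, hz]
  choose m hm using h2
  refine ⟨∑ i ∈ (β.repr z).support, m i • b i, ?_⟩
  conv_lhs => rw [← β.linearCombination_repr z, Finsupp.linearCombination_apply, Finsupp.sum]
  rw [TensorProduct.tmul_sum]
  refine Finset.sum_congr rfl fun i _ => ?_
  rw [← hm, algebraMap_smul, TensorProduct.tmul_smul]
  simp [β, Algebra.TensorProduct.basis_apply]

end fixed

theorem pts : PTS := by
  intro M E B _ _ _ _ _ _ _ g Ψ act hact C _ _ ψ hψ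
  let F0 : E ⊗[M] B →ₐ[E] E ⊗[M] C :=
    (MonoidAlgebra.lift E (E ⊗[M] C) (Multiplicative (Lat g)) ψ).comp
      ((Ψ : E ⊗[M] B ≃ₐ[E] MonoidAlgebra E (Multiplicative (Lat g))) :
        E ⊗[M] B →ₐ[E] MonoidAlgebra E (Multiplicative (Lat g)))
  have hF0 : ∀ x : Lat g, F0 (chi Ψ x) = ψ (Multiplicative.ofAdd x) := by
    intro x
    simp [F0, chi]
  -- the elements `chi x` generate
  have hspan : ∀ z : E ⊗[M] B, z ∈ Submodule.span E (Set.range (chi Ψ)) := by
    intro z
    have h1 : ∀ p : MonoidAlgebra E (Multiplicative (Lat g)),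
        Ψ.symm p ∈ Submodule.span E (Set.range (chi Ψ)) := by
      intro p
      induction p using MonoidAlgebra.induction_on with
      | of a =>
        apply Submodule.subset_span
        exact ⟨Multiplicative.toAdd a, by simp [chi, MonoidAlgebra.of_apply]⟩
      | add p q hp hq =>
        rw [map_add]
        exact Submodule.add_mem _ hp hq
      | smul r p hp =>
        rw [map_smul]
        exact Submodule.smul_mem _ _ hp
    have := h1 (Ψ z)
    simpa using this
  -- equivariance
  have heq : ∀ (γ : E ≃ₐ[M] E) (z : E ⊗[M] B),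
      F0 (Algebra.TensorProduct.map (γ : E →ₐ[M] E) (AlgHom.id M B) z) =
        Algebra.TensorProduct.map (γ : E →ₐ[M] E) (AlgHom.id M C) (F0 z) := by
    intro γ z
    have hsm : ∀ (D : Type) [CommRing D] [Algebra M D] (e : E) (w : E ⊗[M] D),
        Algebra.TensorProduct.map (γ : E →ₐ[M] E) (AlgHom.id M D) (e • w) =
          γ e • Algebra.TensorProduct.map (γ : E →ₐ[M] E) (AlgHom.id M D) w := by
      intro D _ _ e w
      rw [Algebra.smul_def, map_mul, Algebra.smul_def]
      simp
    induction hspan z using Submodule.span_induction with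
    | mem x hx =>
      obtain ⟨y, rfl⟩ := hx
      rw [hact γ y, hF0, hF0, hψ]
    | zero => simp
    | add x y _ _ hx hy => simp only [map_add, hx, hy]
    | smul a x _ hx => rw [hsm, map_smul, hx, map_smul, hsm]
  -- descent
  have hfix : ∀ b : B, ∃ c : C, F0 (1 ⊗ₜ[M] b) = 1 ⊗ₜ[M] c := by
    intro b
    apply fixed_mem
    intro γ
    rw [← heq]
    simp
  let F1 : B →ₐ[M] E ⊗[M] C :=
    (F0.restrictScalars M).comp Algebra.TensorProduct.includeRight
  have hinj : Function.Injective (Algebra.TensorProduct.includeRight : C →ₐ[M] E ⊗[M] C) :=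
    Algebra.TensorProduct.includeRight_injective (algebraMap M E).injective
  let e := AlgEquiv.ofInjective (Algebra.TensorProduct.includeRight : C →ₐ[M] E ⊗[M] C) hinj
  have hF1 : ∀ b : B, F1 b ∈ (Algebra.TensorProduct.includeRight : C →ₐ[M] E ⊗[M] C).range := by
    intro b
    obtain ⟨c, hc⟩ := hfix b
    exact ⟨c, by simp [F1, hc]⟩
  let t : B →ₐ[M] C := (e.symm : _ →ₐ[M] C).comp (F1.codRestrict _ hF1)
  have ht : ∀ b : B, (1 : E) ⊗ₜ[M] t b = F0 (1 ⊗ₜ[M] b) := by
    intro b
    have h3 : (Algebra.TensorProduct.includeRight : C →ₐ[M] E ⊗[M] C) (t b) =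
        ((e (t b) : (Algebra.TensorProduct.includeRight : C →ₐ[M] E ⊗[M] C).range) :
          E ⊗[M] C) := rfl
    have h4 : e (t b) = F1.codRestrict _ hF1 b := by
      simp [t]
    rw [h4] at h3
    exact h3
  refine ⟨t, fun x => ?_⟩
  rw [← hF0]
  have hall : ∀ z : E ⊗[M] B, Algebra.TensorProduct.map (AlgHom.id M E) t z = F0 z := by
    intro z
    induction z with
    | zero => simp
    | add x y hx hy => simp only [map_add, hx, hy]
    | tmul a b =>
      have h5 : a ⊗ₜ[M] b = a • ((1 : E) ⊗ₜ[M] b) := by simp [TensorProduct.smul_tmul']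
      have h6 : F0 (a ⊗ₜ[M] b) = a • F0 (1 ⊗ₜ[M] b) := by rw [h5, map_smul]
      rw [h6, ← ht]
      simp [TensorProduct.smul_tmul']
  exact hall _

end Pool.Agent.Helper80.Nm
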